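import Pool.Agent.P.MP_d06606_an.Slice

namespace Pool.Agent.P.MP_d06606_an

open Filter Topology Set

/-- the variational principle of Ekeland -/
theorem ekeland {Y : Type*} [MetricSpace Y] [CompleteSpace Y] {C : Set Y} (hC : IsClosed C)
    {φ : Y → ℝ} (hφ : Continuous φ) {B : ℝ} (hB : ∀ y ∈ C, φ y ≤ B) {ε : ℝ} (hε : 0 < ε)
    {x₀ : Y} (h₀ : x₀ ∈ C) : ∃ x ∈ C, φ x₀ ≤ φ x ∧ ∀ y ∈ C, φ y ≤ φ x + ε * dist x y := by
  set S : Y → Set Y := fun x => C ∩ {y | φ x + ε * dist x y ≤ φ y} with hS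
  have hcl : ∀ x, IsClosed (S x) := fun x => hC.inter (isClosed_le (by fun_prop) hφ)
  have htr : ∀ x y, y ∈ S x → S y ⊆ S x := fun x y hy z hz => ⟨hz.1, by
    have h1 : φ x + ε * dist x y ≤ φ y := hy.2
    have h2 : φ y + ε * dist y z ≤ φ z := hz.2
    have h3 := mul_le_mul_of_nonneg_left (dist_triangle x y z) hε.le
    show φ x + ε * dist x z ≤ φ z
    linarith⟩
  have hself : ∀ x ∈ C, x ∈ S x := fun x hx => ⟨hx, by simp⟩
  have step : ∀ (n : ℕ) (x : C), ∃ y : C, y.1 ∈ S x ∧
      ∀ z ∈ S y, dist y.1 z ≤ (1 / 2) ^ n := by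
    intro n x
    have hb : BddAbove (φ '' S x) := ⟨B, by rintro _ ⟨y, hy, rfl⟩; exact hB y hy.1⟩
    obtain ⟨_, ⟨y, hy, rfl⟩, h⟩ := exists_lt_of_lt_csSup (s := φ '' S x)
      ⟨_, x, hself x x.2, rfl⟩ (show sSup (φ '' S x) - ε * (1 / 2) ^ n < sSup (φ '' S x) by
        have : 0 < ε * (1 / 2) ^ n := by positivity
        linarith)
    refine ⟨⟨y, hy.1⟩, hy, fun z hz => ?_⟩
    have h1 : φ z ≤ sSup (φ '' S x) := le_csSup hb ⟨z, htr _ _ hy hz, rfl⟩
    have h2 : φ y + ε * dist y z ≤ φ z := hz.2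
    exact le_of_mul_le_mul_left (by linarith) hε
  choose f hf1 hf2 using step
  let u : ℕ → C := fun n => Nat.rec ⟨x₀, h₀⟩ f n
  have hu : ∀ n, u (n + 1) = f n (u n) := fun _ => rfl
  have hmem : ∀ n m, (u (n + m)).1 ∈ S (u n).1 := by
    intro n m
    induction m with
    | zero => exact hself _ (u n).2
    | succ m ih => exact htr _ _ ih (hf1 (n + m) (u (n + m)))
  have hcau : CauchySeq fun n => (u (n + 1)).1 :=
    cauchySeq_of_le_geometric (1 / 2) 1 (by norm_num) fun n => by
      rw [one_mul]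
      exact hf2 n (u n) _ (hmem (n + 1) 1)
  obtain ⟨x, hx⟩ := cauchySeq_tendsto_of_complete hcau
  have hxS : ∀ n, x ∈ S (u n).1 := fun n => (hcl _).mem_of_tendsto hx (by
    filter_upwards [eventually_ge_atTop n] with m hm
    have := hmem n (m + 1 - n)
    rwa [show n + (m + 1 - n) = m + 1 by omega] at this)
  refine ⟨x, (hxS 0).1, ?_, fun y hy => ?_⟩
  · have h1 : φ x₀ + ε * dist x₀ x ≤ φ x := (hxS 0).2
    nlinarith [dist_nonneg (x := x₀) (y := x)]
  · by_contra hc
    have hyS : y ∈ S x := ⟨hy, (not_le.1 hc).le⟩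
    have h1 : Tendsto (fun n => (u (n + 1)).1) atTop (𝓝 y) := by
      rw [tendsto_iff_dist_tendsto_zero]
      exact squeeze_zero (fun _ => dist_nonneg)
        (fun n => hf2 n (u n) y (htr _ _ (hxS (n + 1)) hyS))
        (tendsto_pow_atTop_nhds_zero_of_lt_one (by norm_num) (by norm_num))
    rw [tendsto_nhds_unique hx h1] at hc
    simp at hc

variable {X : Type} [NormedAddCommGroup X] [NormedSpace ℝ X]
variable {K : Type} [TopologicalSpace K] [CompactSpace K] {ev : K → X →L[ℝ] ℝ}

theorem dent_of_bump [CompleteSpace X] (hev : ∀ x, Continuous fun k => ev k x)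
    (hb : ∀ k h, |ev k h| ≤ ‖h‖) {f : X → ℝ} (hf : Differentiable ℝ f) {x₀ : X} (h₀ : f x₀ ≠ 0)
    (hs : Bornology.IsBounded (Function.support f)) : Dent ev := by
  intro D hD hne ε hε
  obtain ⟨R, hR⟩ := hs.subset_closedBall 0
  have hR' : ∀ x, f x ≠ 0 → ‖x‖ ≤ R := fun x hx => by simpa using hR hx
  have hR0 : 0 ≤ R := (norm_nonneg _).trans (hR' x₀ h₀)
  set u : X → ℝ := fun x => f x ^ 2 / (1 + f x ^ 2) with hu
  have hud : Differentiable ℝ u := by
    have h1 : Differentiable ℝ fun t : ℝ => t ^ 2 / (1 + t ^ 2) :=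
      Differentiable.div (by fun_prop) (by fun_prop) fun x => by positivity
    exact h1.comp hf
  have hu1 : ∀ x, u x ≤ 1 := fun x => div_le_one_of_le₀ (by linarith) (by positivity)
  have hu0 : 0 < u x₀ := by simp only [hu]; positivity
  have hl : ∀ y z, |sg ev D y - sg ev D z| ≤ ‖y - z‖ := fun y z => by
    simpa using sg_lip hev hD hne (ξ := 0) (d := 1) (fun k _ z => by simpa using hb k z) y z
  have hbd : ∀ y, |sg ev D y| ≤ ‖y‖ := fun y => by
    obtain ⟨k, -, h, -⟩ := sg_spec hev hD hne y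
    exact h ▸ hb k y
  have hc : Continuous (sg ev D) := (LipschitzWith.of_dist_le_mul (K := 1) fun y z => by
    simpa [Real.dist_eq, dist_eq_norm] using hl y z).continuous
  set M := (2 * R + 3) / u x₀ with hM
  have hM0 : 0 < M := by positivity
  have hM1 : M * u x₀ = 2 * R + 3 := by rw [hM]; field_simp
  obtain ⟨x, hx, h1, h2⟩ := ekeland (C := Metric.closedBall (0 : X) (R + 1))
    Metric.isClosed_closedBall (φ := fun y => sg ev D y + M * u y)
    (hc.add (continuous_const.mul hud.continuous)) (B := R + 1 + M) (fun y hy => by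
      have a := (abs_le.1 (hbd y)).2
      have b : ‖y‖ ≤ R + 1 := by simpa using hy
      have c := mul_le_mul_of_nonneg_left (hu1 y) hM0.le
      linarith) (show 0 < ε / 6 by linarith) (x₀ := x₀) (by
      have := hR' x₀ h₀
      simp only [Metric.mem_closedBall, dist_zero_right]
      linarith)
  have hxR : ‖x‖ ≤ R := by
    refine hR' x fun h => ?_
    have a : u x = 0 := by simp [hu, h]
    have b := (abs_le.1 (hbd x)).2
    have c := (abs_le.1 (hbd x₀)).1
    have d := hR' x₀ h₀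
    have e : ‖x‖ ≤ R + 1 := by simpa using hx
    simp only [a, hM1] at h1
    linarith
  have h3 := (hasFDerivAt_iff_isLittleO_nhds_zero.1 ((hud x).hasFDerivAt.const_mul M)).def
    (show 0 < ε / 6 by linarith)
  obtain ⟨ρ, hρ, h4⟩ := Metric.eventually_nhds_iff.1
    (h3.and (Metric.ball_mem_nhds (0 : X) one_pos))
  set p : X →L[ℝ] ℝ := -(M • fderiv ℝ u x) with hp
  have key : ∀ k ∈ D, sg ev D x - ε / 6 * (ρ / 2) ≤ ev k x → ‖ev k - p‖ ≤ ε / 2 := by
    intro k hk hk'
    have one : ∀ h : X, ‖h‖ = ρ / 2 → (ev k - p) h ≤ ε / 2 * (ρ / 2) := by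
      intro h hh
      obtain ⟨a, b⟩ := h4 (y := h) (by simp only [dist_zero_right]; linarith)
      have b' : ‖h‖ < 1 := by simpa using b
      have c := h2 (x + h) (by
        simp only [Metric.mem_closedBall, dist_zero_right]
        linarith [norm_add_le x h])
      have d := le_sg hev hD hk (x + h)
      rw [map_add] at d
      rw [dist_eq_norm, sub_add_cancel_left, norm_neg, hh] at c
      rw [Real.norm_eq_abs, hh] at a
      have e := (abs_le.1 a).1
      simp only [hp, sub_apply, neg_apply]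
      linarith
    refine ContinuousLinearMap.opNorm_le_of_shell (ε := ρ) hρ (by linarith) (c := (2 : ℝ))
      (by norm_num) fun h _ _ => ?_
    by_cases h0 : h = 0
    · simp [h0]
    have hn : 0 < ‖h‖ := norm_pos_iff.2 h0
    have n1 : ‖(ρ / 2 / ‖h‖) • h‖ = ρ / 2 := by
      rw [norm_smul, Real.norm_eq_abs, abs_of_pos (by positivity)]; field_simp
    have a := one _ n1
    have b := one (-((ρ / 2 / ‖h‖) • h)) (by rw [norm_neg, n1])
    rw [map_neg] at b
    rw [map_smul, smul_eq_mul] at a b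
    have c : |ρ / 2 / ‖h‖ * (ev k - p) h| ≤ ε / 2 * (ρ / 2) := abs_le.2 ⟨by linarith, a⟩
    rw [abs_mul, abs_of_pos (by positivity), div_mul_eq_mul_div, div_le_iff₀ hn] at c
    rw [Real.norm_eq_abs]
    nlinarith
  refine ⟨x, ε / 6 * (ρ / 2), by positivity, fun k hk k' hk' a b h => ?_⟩
  have c : ‖ev k - ev k'‖ ≤ ε := by
    have := norm_sub_le (ev k - p) (ev k' - p)
    rw [sub_sub_sub_cancel_right] at this
    linarith [key k hk a, key k' hk' b]
  have d := (ev k - ev k').le_opNorm h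
  rw [sub_apply, Real.norm_eq_abs] at d
  exact d.trans (mul_le_mul_of_nonneg_right c (norm_nonneg h))

/-- the dual unit ball with the weak star topology -/
abbrev Ball (X : Type) [NormedAddCommGroup X] [NormedSpace ℝ X] : Type :=
  (WeakDual.toStrongDual ⁻¹' Metric.closedBall (0 : StrongDual ℝ X) 1 : Set (WeakDual ℝ X))

instance : CompactSpace (Ball X) :=
  isCompact_iff_compactSpace.1 (WeakDual.isCompact_closedBall 0 1)

instance : Nonempty (Ball X) := ⟨⟨0, by simp⟩⟩

/-- the functional of a point of the dual ball -/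
noncomputable def evB (k : Ball X) : X →L[ℝ] ℝ := WeakDual.toStrongDual k.1

theorem evB_cont (x : X) : Continuous fun k : Ball X => evB k x :=
  (WeakDual.eval_continuous x).comp continuous_subtype_val

theorem evB_le (k : Ball X) (h : X) : |evB k h| ≤ ‖h‖ := by
  have h1 : ‖evB k‖ ≤ 1 := mem_closedBall_zero_iff.1 k.2
  have h2 := (evB k).le_opNorm h
  rw [Real.norm_eq_abs] at h2
  nlinarith [norm_nonneg h]

theorem sg_evB (x : X) : sg evB univ x = ‖x‖ := by
  apply le_antisymm
  · obtain ⟨k, -, h, -⟩ := sg_spec (ev := evB) evB_cont isClosed_univ univ_nonempty x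
    exact h ▸ (le_abs_self _).trans (evB_le k x)
  · obtain ⟨g, h1, h2⟩ := exists_dual_vector'' ℝ x
    have := le_sg (ev := evB) evB_cont isClosed_univ
      (k := ⟨StrongDual.toWeakDual g, by simpa using h1⟩) (mem_univ _) x
    exact le_of_eq_of_le h2.symm this

/-- a space whose dual ball is weak star dentable has a Lipschitz bump of class `C¹` -/
theorem bump_of_dent (hd : Dent (evB (X := X))) :
    ∃ g : X → ℝ, ContDiff ℝ 1 g ∧ (∃ K, LipschitzWith K g) ∧ (∃ x, g x ≠ 0) ∧
      Bornology.IsBounded (Function.support g) := by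
  obtain ⟨G, h1, h2, h3⟩ := exists_approx evB_cont evB_le hd one_pos
  simp only [sg_evB] at h1
  refine ⟨fun x => -1 * Th (G x) + 2, contDiff_of_LA fun x => ?_, ⟨10, ?_⟩, ⟨0, ?_⟩, ?_⟩
  · obtain ⟨ξ, hξ⟩ := h3 x
    obtain ⟨f', -, hf'⟩ := Th_strict (G x)
    exact ⟨_, (((hξ.comp hf').smul (-1)).add (LA.const 2 x)).mono (by simp)⟩
  · refine LipschitzWith.of_dist_le_mul fun y z => ?_
    have a := Th_lip (G y) (G z)
    have b := h2 y z
    rw [Real.dist_eq, dist_eq_norm, abs_sub_comm]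
    have e : -1 * Th (G z) + 2 - (-1 * Th (G y) + 2) = Th (G y) - Th (G z) := by ring
    rw [e]
    push_cast
    linarith
  · simp only
    rw [Th_of_nonpos (by simpa using (h1 0).2)]
    norm_num
  · refine (Metric.isBounded_closedBall (x := (0 : X)) (r := 3)).subset fun x hx => ?_
    by_contra hc
    have h4 : 3 < ‖x‖ := by simpa using hc
    exact hx (by simp only; rw [Th_of_ge (by linarith [(h1 x).1])]; norm_num)

end Pool.Agent.P.MP_d06606_an
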