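import Mathlib

namespace Pool.Agent.P.MP_d06606_an

open Filter Topology Set

variable {X : Type*} [NormedAddCommGroup X] [NormedSpace ℝ X]

/-- near `x` the function `F - ξ` has Lipschitz constant at most about `c` -/
def LA (F : X → ℝ) (ξ : X →L[ℝ] ℝ) (x : X) (c : ℝ) : Prop :=
  ∀ e > 0, ∀ᶠ p : X × X in 𝓝 (x, x), |F p.1 - F p.2 - ξ (p.1 - p.2)| ≤ (c + e) * ‖p.1 - p.2‖

theorem LA.mono {F : X → ℝ} {ξ : X →L[ℝ] ℝ} {x : X} {c c' : ℝ} (h : LA F ξ x c) (hc : c ≤ c') :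
    LA F ξ x c' := fun e he => (h e he).mono fun p hp =>
  hp.trans (mul_le_mul_of_nonneg_right (by linarith) (norm_nonneg _))

theorem LA.of_lip {F : X → ℝ} {ξ : X →L[ℝ] ℝ} {c : ℝ}
    (h : ∀ y z, |F y - F z - ξ (y - z)| ≤ c * ‖y - z‖) (x : X) : LA F ξ x c :=
  fun e he => Eventually.of_forall fun p =>
    (h p.1 p.2).trans (mul_le_mul_of_nonneg_right (by linarith) (norm_nonneg _))

theorem LA.const (a : ℝ) (x : X) : LA (fun _ => a) 0 x 0 :=
  LA.of_lip (fun y z => by simp) x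

theorem LA.add {F G : X → ℝ} {ξ ζ : X →L[ℝ] ℝ} {x : X} {c c' : ℝ} (h : LA F ξ x c)
    (h' : LA G ζ x c') : LA (fun y => F y + G y) (ξ + ζ) x (c + c') := by
  intro e he
  filter_upwards [h (e / 2) (by linarith), h' (e / 2) (by linarith)] with p h1 h2
  have : F p.1 + G p.1 - (F p.2 + G p.2) - (ξ + ζ) (p.1 - p.2) =
      (F p.1 - F p.2 - ξ (p.1 - p.2)) + (G p.1 - G p.2 - ζ (p.1 - p.2)) := by
    rw [add_apply]; ring
  rw [this]
  refine (abs_add_le _ _).trans ?_
  nlinarith [norm_nonneg (p.1 - p.2)]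

theorem LA.smul {F : X → ℝ} {ξ : X →L[ℝ] ℝ} {x : X} {c : ℝ} (h : LA F ξ x c) (r : ℝ) :
    LA (fun y => r * F y) (r • ξ) x (|r| * c) := by
  intro e he
  have h1 : 0 < |r| + 1 := by positivity
  filter_upwards [h (e / (|r| + 1)) (by positivity)] with p hp
  have : r * F p.1 - r * F p.2 - (r • ξ) (p.1 - p.2) = r * (F p.1 - F p.2 - ξ (p.1 - p.2)) := by
    rw [smul_apply, smul_eq_mul]; ring
  rw [this, abs_mul]
  have h2 : |r| * (e / (|r| + 1)) ≤ e := by
    rw [← mul_div_assoc, div_le_iff₀ h1]; nlinarith [abs_nonneg r]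
  calc |r| * |F p.1 - F p.2 - ξ (p.1 - p.2)| ≤ |r| * ((c + e / (|r| + 1)) * ‖p.1 - p.2‖) :=
        mul_le_mul_of_nonneg_left hp (abs_nonneg r)
    _ = (|r| * c + |r| * (e / (|r| + 1))) * ‖p.1 - p.2‖ := by ring
    _ ≤ _ := mul_le_mul_of_nonneg_right (by linarith) (norm_nonneg _)

theorem LA.congr {F G : X → ℝ} {ξ : X →L[ℝ] ℝ} {x : X} {c : ℝ} (h : LA F ξ x c)
    (hFG : F =ᶠ[𝓝 x] G) : LA G ξ x c := by
  intro e he
  have h1 : ∀ᶠ p : X × X in 𝓝 (x, x), F p.1 = G p.1 :=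
    (continuous_fst.tendsto' (x, x) x rfl).eventually hFG
  have h2 : ∀ᶠ p : X × X in 𝓝 (x, x), F p.2 = G p.2 :=
    (continuous_snd.tendsto' (x, x) x rfl).eventually hFG
  filter_upwards [h e he, h1, h2] with p hp a b
  rwa [← a, ← b]

theorem LA.sum {ι : Type*} (s : Finset ι) {F : ι → X → ℝ} {ξ : ι → X →L[ℝ] ℝ} {x : X}
    {c : ι → ℝ} (h : ∀ i ∈ s, LA (F i) (ξ i) x (c i)) :
    LA (fun y => ∑ i ∈ s, F i y) (∑ i ∈ s, ξ i) x (∑ i ∈ s, c i) := by
  classical
  induction s using Finset.induction_on with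
  | empty => simpa using LA.const 0 x
  | insert a s ha ih =>
    simp only [Finset.sum_insert ha]
    exact (h a (Finset.mem_insert_self a s)).add
      (ih fun i hi => h i (Finset.mem_insert_of_mem hi))

theorem LA.bound {F : X → ℝ} {ξ : X →L[ℝ] ℝ} {x : X} {c : ℝ} (h : LA F ξ x c) :
    ∀ᶠ p : X × X in 𝓝 (x, x), |F p.1 - F p.2| ≤ (‖ξ‖ + |c| + 1) * ‖p.1 - p.2‖ := by
  filter_upwards [h 1 one_pos] with p hp
  have h1 : |ξ (p.1 - p.2)| ≤ ‖ξ‖ * ‖p.1 - p.2‖ := ξ.le_opNorm _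
  have h2 : |F p.1 - F p.2| ≤ |F p.1 - F p.2 - ξ (p.1 - p.2)| + |ξ (p.1 - p.2)| := by
    simpa using abs_add_le (F p.1 - F p.2 - ξ (p.1 - p.2)) (ξ (p.1 - p.2))
  nlinarith [le_abs_self c, norm_nonneg (p.1 - p.2)]

theorem LA.continuousAt {F : X → ℝ} {ξ : X →L[ℝ] ℝ} {x : X} {c : ℝ} (h : LA F ξ x c) :
    ContinuousAt F x := by
  have h1 : Tendsto (fun y : X => (y, x)) (𝓝 x) (𝓝 (x, x)) :=
    (continuous_id.prodMk continuous_const).tendsto' x (x, x) rfl
  have h2 := h1.eventually h.bound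
  rw [ContinuousAt, tendsto_iff_norm_sub_tendsto_zero]
  have h3 : Tendsto (fun y : X => (‖ξ‖ + |c| + 1) * ‖y - x‖) (𝓝 x) (𝓝 0) := by
    have : Continuous (fun y : X => (‖ξ‖ + |c| + 1) * ‖y - x‖) := by fun_prop
    simpa using this.tendsto x
  exact squeeze_zero' (Eventually.of_forall fun _ => norm_nonneg _) h2 h3

theorem LA.comp {F : X → ℝ} {ξ : X →L[ℝ] ℝ} {x : X} {c : ℝ} (h : LA F ξ x c) {f : ℝ → ℝ}
    {f' : ℝ} (hf : HasStrictDerivAt f f' (F x)) :
    LA (fun y => f (F y)) (f' • ξ) x (|f'| * c) := by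
  intro e he
  set L := ‖ξ‖ + |c| + 1 with hL
  have hL0 : 0 < L := by positivity
  have h0 : Tendsto (fun p : X × X => (F p.1, F p.2)) (𝓝 (x, x)) (𝓝 (F x, F x)) :=
    (h.continuousAt.tendsto.comp (continuous_fst.tendsto' (x, x) x rfl)).prodMk_nhds
      (h.continuousAt.tendsto.comp (continuous_snd.tendsto' (x, x) x rfl))
  have h1 := (hasStrictFDerivAt_iff_isLittleO.1 hf.hasStrictFDerivAt).def
    (c := e / 2 / L) (by positivity)
  filter_upwards [h0.eventually h1, h.bound, h.smul f' (e / 2) (by linarith)] with p a b d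
  simp only [ContinuousLinearMap.toSpanSingleton_apply, smul_eq_mul, Real.norm_eq_abs] at a
  have : f (F p.1) - f (F p.2) - (f' • ξ) (p.1 - p.2) =
      (f (F p.1) - f (F p.2) - (F p.1 - F p.2) * f') +
        (f' * F p.1 - f' * F p.2 - (f' • ξ) (p.1 - p.2)) := by ring
  rw [this]
  refine (abs_add_le _ _).trans ?_
  have h2 : e / 2 / L * |F p.1 - F p.2| ≤ e / 2 * ‖p.1 - p.2‖ := by
    calc e / 2 / L * |F p.1 - F p.2| ≤ e / 2 / L * (L * ‖p.1 - p.2‖) :=
          mul_le_mul_of_nonneg_left b (by positivity)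
      _ = e / 2 * ‖p.1 - p.2‖ := by field_simp
  nlinarith

theorem LA.uniq {F : X → ℝ} {ξ ζ : X →L[ℝ] ℝ} {x : X} {c c' : ℝ} (h : LA F ξ x c)
    (h' : LA F ζ x c') (hc : 0 ≤ c + c') : ‖ξ - ζ‖ ≤ c + c' := by
  refine le_of_forall_pos_le_add fun e he => ?_
  refine ContinuousLinearMap.opNorm_le_of_nhds_zero (by linarith) ?_
  have h1 : Tendsto (fun y : X => (x + y, x)) (𝓝 0) (𝓝 (x, x)) :=
    (Continuous.tendsto' (by fun_prop) 0 (x, x) (by simp))
  filter_upwards [h1.eventually (h (e / 2) (by linarith)),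
    h1.eventually (h' (e / 2) (by linarith))] with y a b
  simp only [add_sub_cancel_left] at a b
  rw [sub_apply, Real.norm_eq_abs]
  have : ξ y - ζ y = (F (x + y) - F x - ζ y) - (F (x + y) - F x - ξ y) := by ring
  rw [this]
  refine (abs_sub _ _).trans ?_
  nlinarith [norm_nonneg y]

theorem LA.change {F : X → ℝ} {ξ ζ : X →L[ℝ] ℝ} {x : X} {c : ℝ} (h : LA F ξ x c) :
    LA F ζ x (c + ‖ξ - ζ‖) := by
  intro e he
  filter_upwards [h e he] with p hp
  have h1 : |(ξ - ζ) (p.1 - p.2)| ≤ ‖ξ - ζ‖ * ‖p.1 - p.2‖ := (ξ - ζ).le_opNorm _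
  have : F p.1 - F p.2 - ζ (p.1 - p.2) =
      (F p.1 - F p.2 - ξ (p.1 - p.2)) + (ξ - ζ) (p.1 - p.2) := by
    rw [sub_apply]; ring
  rw [this]
  refine (abs_add_le _ _).trans ?_
  nlinarith

theorem LA.limit {F : X → ℝ} {x : X} {C : ℝ} (hC : 0 ≤ C)
    (h : ∀ n : ℕ, ∃ ξ, LA F ξ x (C * (1 / 2) ^ n)) : ∃ ξ, LA F ξ x 0 := by
  choose ξ hξ using h
  have hc : CauchySeq ξ := by
    refine cauchySeq_of_le_geometric (1 / 2) (2 * C) (by norm_num) fun n => ?_
    rw [dist_eq_norm]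
    have := (hξ n).uniq (hξ (n + 1)) (by positivity)
    refine this.trans ?_
    rw [pow_succ]
    have : 0 ≤ C * (1 / 2 : ℝ) ^ n := by positivity
    nlinarith
  obtain ⟨ζ, hζ⟩ := cauchySeq_tendsto_of_complete hc
  refine ⟨ζ, fun e he => ?_⟩
  have h1 : Tendsto (fun n : ℕ => C * (1 / 2 : ℝ) ^ n + ‖ξ n - ζ‖) atTop (𝓝 0) := by
    have a := (tendsto_pow_atTop_nhds_zero_of_lt_one (r := (1 / 2 : ℝ)) (by norm_num)
      (by norm_num)).const_mul C
    have b := tendsto_iff_norm_sub_tendsto_zero.1 hζ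
    simpa using a.add b
  obtain ⟨n, hn⟩ := (h1.eventually (gt_mem_nhds (show (0 : ℝ) < e / 2 by linarith))).exists
  filter_upwards [(hξ n).change (ζ := ζ) (e / 2) (by linarith)] with p hp
  exact hp.trans (mul_le_mul_of_nonneg_right (by linarith) (norm_nonneg _))

theorem LA.hasStrict {F : X → ℝ} {ξ : X →L[ℝ] ℝ} {x : X} (h : LA F ξ x 0) :
    HasStrictFDerivAt F ξ x := by
  rw [hasStrictFDerivAt_iff_isLittleO, Asymptotics.isLittleO_iff]
  intro e he
  filter_upwards [h e he] with p hp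
  simpa using hp

theorem contDiff_of_LA {F : X → ℝ} (h : ∀ x, ∃ ξ, LA F ξ x 0) : ContDiff ℝ 1 F := by
  choose ξ hξ using h
  have hd : ∀ x, HasFDerivAt F (ξ x) x := fun x => (hξ x).hasStrict.hasFDerivAt
  rw [contDiff_one_iff_fderiv]
  refine ⟨fun x => (hd x).differentiableAt, ?_⟩
  have : fderiv ℝ F = ξ := funext fun x => (hd x).fderiv
  rw [this, continuous_iff_continuousAt]
  intro x
  rw [ContinuousAt, Metric.tendsto_nhds]
  intro e he
  have h1 := hξ x (e / 2) (by linarith)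
  have h2 : Tendsto (fun y : X => (y, y)) (𝓝 x) (𝓝 (x, x)) :=
    (continuous_id.prodMk continuous_id).tendsto' x (x, x) rfl
  filter_upwards [h2.eventually h1.eventually_nhds] with y hy
  have h3 : LA F (ξ x) y (e / 2) := fun e' he' => hy.mono fun p hp =>
    hp.trans (mul_le_mul_of_nonneg_right (by linarith) (norm_nonneg _))
  have := (hξ y).uniq h3 (by linarith)
  rw [dist_eq_norm]
  linarith

/-- the square of the positive part -/
noncomputable def psi (t : ℝ) : ℝ := (max t 0) ^ 2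

theorem psi_nonneg (t : ℝ) : 0 ≤ psi t := sq_nonneg _

theorem psi_of_nonpos {t : ℝ} (h : t ≤ 0) : psi t = 0 := by simp [psi, max_eq_right h]

theorem psi_of_nonneg {t : ℝ} (h : 0 ≤ t) : psi t = t ^ 2 := by simp [psi, max_eq_left h]

theorem psi_mono : Monotone psi := fun _ _ h =>
  pow_le_pow_left₀ (le_max_right _ _) (max_le_max h le_rfl) 2

theorem psi_continuous : Continuous psi := by unfold psi; fun_prop

theorem psi_est (a s t : ℝ) :
    |psi s - psi t - (s - t) * (2 * max a 0)| ≤ 2 * (|s - a| + |t - a|) * |s - t| := by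
  have key : ∀ s t : ℝ, t ≤ s →
      |psi s - psi t - (s - t) * (2 * max a 0)| ≤ 2 * (|s - a| + |t - a|) * |s - t| := by
    intro s t hts
    rw [abs_of_nonneg (sub_nonneg.2 hts), abs_le]
    have h1 := le_abs_self (s - a)
    have h2 := neg_abs_le (s - a)
    have h3 := le_abs_self (t - a)
    have h4 := neg_abs_le (t - a)
    rcases le_total a 0 with ha | ha <;> rcases le_total s 0 with hs | hs <;>
      rcases le_total t 0 with ht | ht <;>
      simp only [psi, max_eq_left, max_eq_right, ha, hs, ht] <;> constructor <;> nlinarith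
  rcases le_total t s with h | h
  · exact key s t h
  · have := key t s h
    rw [abs_sub_comm s t, add_comm |s - a|, ← abs_neg]
    convert this using 2
    ring

theorem psi_strict (a : ℝ) : HasStrictDerivAt psi (2 * max a 0) a := by
  rw [hasStrictDerivAt_iff_hasStrictFDerivAt, hasStrictFDerivAt_iff_isLittleO,
    Asymptotics.isLittleO_iff]
  intro e he
  have h1 : Tendsto (fun p : ℝ × ℝ => 2 * (|p.1 - a| + |p.2 - a|)) (𝓝 (a, a)) (𝓝 0) :=
    Continuous.tendsto' (by fun_prop) _ _ (by simp)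
  filter_upwards [h1.eventually (gt_mem_nhds he)] with p hp
  simp only [ContinuousLinearMap.toSpanSingleton_apply, smul_eq_mul, Real.norm_eq_abs]
  exact (psi_est a p.1 p.2).trans (mul_le_mul_of_nonneg_right hp.le (abs_nonneg _))

/-- a step function from `0` to `2` -/
noncomputable def Th (t : ℝ) : ℝ := psi t - 2 * psi (t - 1) + psi (t - 2)

theorem Th_of_nonpos {t : ℝ} (h : t ≤ 0) : Th t = 0 := by
  simp [Th, psi_of_nonpos h, psi_of_nonpos (show t - 1 ≤ 0 by linarith),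
    psi_of_nonpos (show t - 2 ≤ 0 by linarith)]

theorem Th_of_ge {t : ℝ} (h : 2 ≤ t) : Th t = 2 := by
  rw [Th, psi_of_nonneg (by linarith), psi_of_nonneg (by linarith), psi_of_nonneg (by linarith)]
  ring

theorem Th_strict (a : ℝ) : ∃ f', |f'| ≤ 2 ∧ HasStrictDerivAt Th f' a := by
  refine ⟨2 * max a 0 - 2 * (2 * max (a - 1) 0) + 2 * max (a - 2) 0, ?_, ?_⟩
  · rw [abs_le]
    rcases le_total a 0 with h0 | h0 <;> rcases le_total (a - 1) 0 with h1 | h1 <;>
      rcases le_total (a - 2) 0 with h2 | h2 <;>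
      simp only [max_eq_left, max_eq_right, h0, h1, h2] <;> constructor <;> linarith
  · have h1 := (psi_strict (a - 1)).comp a ((hasStrictDerivAt_id a).sub_const 1)
    have h2 := (psi_strict (a - 2)).comp a ((hasStrictDerivAt_id a).sub_const 2)
    simp only [mul_one] at h1 h2
    exact ((psi_strict a).sub (h1.const_mul 2)).add h2

theorem Th_lip (s t : ℝ) : |Th s - Th t| ≤ 2 * |s - t| := by
  choose f' h1 h2 using Th_strict
  have := Convex.norm_image_sub_le_of_norm_hasDerivWithin_le (f := Th) (f' := f') (s := univ)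
    (C := 2) (fun x _ => (h2 x).hasDerivAt.hasDerivWithinAt) (fun x _ => h1 x) convex_univ
    (mem_univ t) (mem_univ s)
  simpa using this

theorem Th_le (t : ℝ) : Th t ≤ 2 := by
  rcases le_total t 0 with h0 | h0
  · rw [Th_of_nonpos h0]; norm_num
  rcases le_total t 1 with h1 | h1
  · rw [Th, psi_of_nonneg h0, psi_of_nonpos (by linarith), psi_of_nonpos (by linarith)]; nlinarith
  rcases le_total t 2 with h2 | h2
  · rw [Th, psi_of_nonneg h0, psi_of_nonneg (by linarith), psi_of_nonpos (by linarith)]; nlinarith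
  · rw [Th_of_ge h2]

end Pool.Agent.P.MP_d06606_an
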