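import Pool.Agent.P.MP_d06606_an.Sys

namespace Pool.Agent.P.MP_d06606_an

open Filter Topology Set

variable {X : Type} [NormedAddCommGroup X] [NormedSpace ℝ X]
variable {K : Type} [TopologicalSpace K] [CompactSpace K] {ev : K → X →L[ℝ] ℝ}

/-- the support function -/
noncomputable def sg (ev : K → X →L[ℝ] ℝ) (D : Set K) (x : X) : ℝ := sSup ((fun k => ev k x) '' D)

theorem sg_spec (hev : ∀ x, Continuous fun k => ev k x) {D : Set K} (hD : IsClosed D)
    (hne : D.Nonempty) (x : X) : ∃ k ∈ D, sg ev D x = ev k x ∧ ∀ k' ∈ D, ev k' x ≤ ev k x :=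
  hD.isCompact.exists_sSup_image_eq_and_ge hne (hev x).continuousOn

theorem le_sg (hev : ∀ x, Continuous fun k => ev k x) {D : Set K} (hD : IsClosed D) {k : K}
    (hk : k ∈ D) (x : X) : ev k x ≤ sg ev D x := by
  obtain ⟨k', -, h1, h2⟩ := sg_spec hev hD ⟨k, hk⟩ x
  exact h1 ▸ h2 k hk

theorem sg_mono (hev : ∀ x, Continuous fun k => ev k x) {D D' : Set K} (hD : IsClosed D)
    (hne : D.Nonempty) (hD' : IsClosed D') (h : D ⊆ D') (x : X) : sg ev D x ≤ sg ev D' x := by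
  obtain ⟨k, hk, h1, -⟩ := sg_spec hev hD hne x
  exact h1 ▸ le_sg hev hD' (h hk) x

theorem sg_lip (hev : ∀ x, Continuous fun k => ev k x) {D : Set K} (hD : IsClosed D)
    (hne : D.Nonempty) {ξ : X →L[ℝ] ℝ} {d : ℝ} (h : ∀ k ∈ D, ∀ z, |ev k z - ξ z| ≤ d * ‖z‖)
    (y z : X) : |sg ev D y - sg ev D z - ξ (y - z)| ≤ d * ‖y - z‖ := by
  obtain ⟨k, hk, h1, -⟩ := sg_spec hev hD hne y
  obtain ⟨k', hk', h2, -⟩ := sg_spec hev hD hne z
  have a := le_sg hev hD hk z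
  have b := le_sg hev hD hk' y
  have c := abs_le.1 (h k hk (y - z))
  have e := abs_le.1 (h k' hk' (y - z))
  rw [map_sub (ev k)] at c
  rw [map_sub (ev k')] at e
  rw [abs_le]
  constructor <;> linarith [c.2, e.1]

/-- closed sets have slices of small diameter -/
def Dent (ev : K → X →L[ℝ] ℝ) : Prop :=
  ∀ D : Set K, IsClosed D → D.Nonempty → ∀ ε > 0, ∃ x τ, 0 < τ ∧ ∀ k ∈ D, ∀ k' ∈ D,
    sg ev D x - τ ≤ ev k x → sg ev D x - τ ≤ ev k' x → ∀ h, |ev k h - ev k' h| ≤ ε * ‖h‖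

theorem exists_split (hev : ∀ x, Continuous fun k => ev k x) (hd : Dent ev) {ε : ℝ} (hε : 0 < ε) :
    ∃ Sf Rf : Set K → Set K, ∀ E, IsClosed E → IsClosed (Rf E) ∧ Rf E ⊆ E ∧ (E.Nonempty →
      IsClosed (Sf E) ∧ (Sf E).Nonempty ∧ Sf E ⊆ E ∧ E ⊆ Sf E ∪ Rf E ∧ Rf E ≠ E ∧
        ∀ k ∈ Sf E, ∀ k' ∈ Sf E, ∀ h, |ev k h - ev k' h| ≤ ε * ‖h‖) := by
  have : ∀ E : Set K, ∃ S R : Set K, IsClosed E → IsClosed R ∧ R ⊆ E ∧ (E.Nonempty →
      IsClosed S ∧ S.Nonempty ∧ S ⊆ E ∧ E ⊆ S ∪ R ∧ R ≠ E ∧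
        ∀ k ∈ S, ∀ k' ∈ S, ∀ h, |ev k h - ev k' h| ≤ ε * ‖h‖) := by
    intro E
    by_cases h : IsClosed E ∧ E.Nonempty
    · obtain ⟨x, τ, hτ, H⟩ := hd E h.1 h.2 ε hε
      obtain ⟨k, hk, h1, -⟩ := sg_spec hev h.1 h.2 x
      refine ⟨E ∩ {k | sg ev E x - τ ≤ ev k x}, E ∩ {k | ev k x ≤ sg ev E x - τ}, fun _ =>
        ⟨h.1.inter (isClosed_le (hev x) continuous_const), inter_subset_left, fun _ =>
          ⟨h.1.inter (isClosed_le continuous_const (hev x)), ⟨k, hk, ?_⟩, inter_subset_left,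
            fun k' hk' => ?_, fun he => ?_, fun a ha b hb => H a ha.1 b hb.1 ha.2 hb.2⟩⟩⟩
      · simp only [mem_ofPred_eq]; linarith
      · rcases le_total (sg ev E x - τ) (ev k' x) with h2 | h2
        · exact Or.inl ⟨hk', h2⟩
        · exact Or.inr ⟨hk', h2⟩
      · have h2 : k ∈ E ∩ {k | ev k x ≤ sg ev E x - τ} := by rw [he]; exact hk
        have h3 := h2.2
        simp only [mem_ofPred_eq] at h3
        linarith
    · exact ⟨∅, ∅, fun h1 => ⟨isClosed_empty, empty_subset _, fun h2 => absurd ⟨h1, h2⟩ h⟩⟩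
  choose S R h using this
  exact ⟨S, R, h⟩

/-- transfinite slicing -/
noncomputable def Dr (Rf : Set K → Set K) (D : Set K) : Ordinal.{0} → Set K :=
  (wellFounded_lt (α := Ordinal.{0})).fix fun o r => D ∩ ⋂ p : Iio o, Rf (r p.1 p.2)

omit [TopologicalSpace K] [CompactSpace K] in
theorem Dr_eq (Rf : Set K → Set K) (D : Set K) (o : Ordinal.{0}) :
    Dr Rf D o = D ∩ ⋂ p : Iio o, Rf (Dr Rf D p.1) := by
  rw [Dr, WellFounded.fix_eq]

theorem exists_slicing (hev : ∀ x, Continuous fun k => ev k x) (hb : ∀ k h, |ev k h| ≤ ‖h‖)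
    (hd : Dent ev) {D : Set K} (hD : IsClosed D) (hne : D.Nonempty) {ε : ℝ} (hε : 0 < ε) :
    ∃ (I : Type 1) (S E : I → Set K) (a : I → ℝ),
      (∀ i, IsClosed (S i) ∧ (S i).Nonempty ∧ S i ⊆ D ∧
        ∀ k ∈ S i, ∀ k' ∈ S i, ∀ h, |ev k h - ev k' h| ≤ ε * ‖h‖) ∧
      (∀ i, IsClosed (E i) ∧ (E i).Nonempty ∧ E i ⊆ D) ∧
      (∀ x, ∃ i, sg ev (S i) x = sg ev D x ∧ 0 < sg ev (S i) x - sg ev (E i) x + a i) ∧
      ∀ x δ, 0 < δ → {i | δ < sg ev (S i) x - sg ev (E i) x + a i}.Finite := by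
  classical
  obtain ⟨Sf, Rf, H⟩ := exists_split hev hd hε
  set C := Dr Rf D with hC
  have hcl : ∀ o, IsClosed (C o) := by
    intro o
    induction o using WellFoundedLT.induction with
    | ind o ih =>
      rw [hC, Dr_eq]
      exact hD.inter (isClosed_iInter fun p => (H _ (ih p.1 p.2)).1)
  have hsub : ∀ o, C o ⊆ D := fun o => by rw [hC, Dr_eq]; exact inter_subset_left
  have hlt : ∀ {o o'}, o' < o → C o ⊆ Rf (C o') := fun {o o'} h => by
    rw [hC, Dr_eq]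
    exact inter_subset_right.trans (iInter_subset (fun p : Iio o => Rf (Dr Rf D p.1)) ⟨o', h⟩)
  have hem : ∃ o, C o = ∅ := by
    by_contra hc
    push Not at hc
    have : ∀ o o', o' < o → C o ≠ C o' := fun o o' h he =>
      ((H _ (hcl o')).2.2 (hc o')).2.2.2.2.1
        (Subset.antisymm (H _ (hcl o')).2.1 (he.ge.trans (hlt h)))
    refine not_injective_of_ordinal C fun o o' he => ?_
    rcases lt_trichotomy o o' with h | h | h
    · exact absurd he.symm (this _ _ h)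
    · exact h
    · exact absurd he (this _ _ h)
  refine ⟨{o // (C o).Nonempty}, fun i => Sf (C i.1),
    fun i => if (Rf (C i.1)).Nonempty then Rf (C i.1) else Sf (C i.1),
    fun i => if (Rf (C i.1)).Nonempty then 0 else 1, fun i => ?_, fun i => ?_, fun x => ?_,
    fun x δ hδ => ?_⟩
  · obtain ⟨h1, h2, h3, -, -, h4⟩ := (H _ (hcl i.1)).2.2 i.2
    exact ⟨h1, h2, h3.trans (hsub _), h4⟩
  · obtain ⟨h1, h2, h3, -⟩ := (H _ (hcl i.1)).2.2 i.2
    by_cases h : (Rf (C i.1)).Nonempty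
    · simp only [if_pos h]
      exact ⟨(H _ (hcl i.1)).1, h, (H _ (hcl i.1)).2.1.trans (hsub _)⟩
    · simp only [if_neg h]
      exact ⟨h1, h2, h3.trans (hsub _)⟩
  · set A : Set K := D ∩ {k | sg ev D x ≤ ev k x} with hA
    have hAc : IsClosed A := hD.inter (isClosed_le continuous_const (hev x))
    have hAn : A.Nonempty := by
      obtain ⟨k, hk, h1, -⟩ := sg_spec hev hD hne x
      exact ⟨k, hk, h1.le⟩
    have h0 : {o | A ∩ Rf (C o) = ∅}.Nonempty := by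
      obtain ⟨o, ho⟩ := hem
      refine ⟨o, ?_⟩
      have := (H _ (hcl o)).2.1
      rw [ho] at this
      simp [ho, subset_empty_iff.1 this]
    obtain ⟨o, ho, hmin⟩ := (wellFounded_lt (α := Ordinal.{0})).has_min _ h0
    have h1 : (A ∩ ⋂ p : Iio o, Rf (C p.1)).Nonempty := by
      refine hAc.isCompact.inter_iInter_nonempty _ (fun p => (H _ (hcl p.1)).1) fun u => ?_
      rcases u.eq_empty_or_nonempty with rfl | hu
      · simpa using hAn
      obtain ⟨p, hp, hmax⟩ := u.exists_max_image (fun p => p.1) hu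
      obtain ⟨k, hk1, hk2⟩ : (A ∩ Rf (C p.1)).Nonempty :=
        nonempty_iff_ne_empty.2 fun he => hmin p.1 he p.2
      refine ⟨k, hk1, mem_iInter₂.2 fun q hq => ?_⟩
      rcases (hmax q hq).lt_or_eq with h | h
      · exact hlt h ((H _ (hcl p.1)).2.1 hk2)
      · rw [h]; exact hk2
    obtain ⟨k, hkA, hk⟩ := h1
    have hkC : k ∈ C o := by rw [hC, Dr_eq]; exact ⟨hkA.1, hk⟩
    obtain ⟨h1, h2, h3, h4, -⟩ := (H _ (hcl o)).2.2 ⟨k, hkC⟩
    have hkS : k ∈ Sf (C o) := (h4 hkC).resolve_right fun h => by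
      have : k ∈ A ∩ Rf (C o) := ⟨hkA, h⟩
      rw [ho] at this
      exact this
    have e : sg ev (Sf (C o)) x = sg ev D x :=
      le_antisymm (sg_mono hev h1 h2 hD (h3.trans (hsub _)) x) (hkA.2.trans (le_sg hev h1 hkS x))
    refine ⟨⟨o, k, hkC⟩, e, ?_⟩
    by_cases h : (Rf (C o)).Nonempty
    · simp only [if_pos h, e]
      obtain ⟨k', hk', h5, -⟩ := sg_spec hev (H _ (hcl o)).1 h x
      have h6 : ¬ sg ev D x ≤ ev k' x := fun h7 => by
        have : k' ∈ A ∩ Rf (C o) := ⟨⟨hsub _ ((H _ (hcl o)).2.1 hk'), h7⟩, hk'⟩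
        rw [ho] at this
        exact this
      linarith [not_le.1 h6]
    · simp [if_neg h]
  · have hbd : ∀ i : {o // (C o).Nonempty}, |sg ev (Sf (C i.1)) x| ≤ ‖x‖ := fun i => by
      obtain ⟨h1, h2, -⟩ := (H _ (hcl i.1)).2.2 i.2
      obtain ⟨k, -, h3, -⟩ := sg_spec hev h1 h2 x
      exact h3 ▸ hb k x
    have key : ∀ i j : {o // (C o).Nonempty}, i.1 < j.1 →
        δ < sg ev (Sf (C i.1)) x - sg ev (if (Rf (C i.1)).Nonempty then Rf (C i.1)
          else Sf (C i.1)) x + (if (Rf (C i.1)).Nonempty then 0 else 1) →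
        ⌊sg ev (Sf (C j.1)) x / δ⌋ < ⌊sg ev (Sf (C i.1)) x / δ⌋ := by
      intro i j hij h
      have h1 : (Rf (C i.1)).Nonempty := j.2.mono (hlt hij)
      simp only [if_pos h1] at h
      obtain ⟨h2, h3, h4, -⟩ := (H _ (hcl j.1)).2.2 j.2
      have h5 := sg_mono hev h2 h3 (H _ (hcl i.1)).1 (h4.trans (hlt hij)) x
      rw [← Int.add_one_le_iff, ← Int.floor_add_one]
      refine Int.floor_mono ?_
      rw [div_add_one hδ.ne']
      exact div_le_div_of_nonneg_right (by linarith) hδ.le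
    refine Finite.of_finite_image (f := fun i => ⌊sg ev (Sf (C i.1)) x / δ⌋)
      ((finite_Icc ⌊-‖x‖ / δ⌋ ⌊‖x‖ / δ⌋).subset ?_) fun i hi j hj he => ?_
    · rintro _ ⟨i, -, rfl⟩
      have := abs_le.1 (hbd i)
      exact ⟨Int.floor_mono (div_le_div_of_nonneg_right this.1 hδ.le),
        Int.floor_mono (div_le_div_of_nonneg_right this.2 hδ.le)⟩
    · rcases lt_trichotomy i.1 j.1 with h | h | h
      · exact absurd he (key i j h hi).ne'
      · exact Subtype.ext h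
      · exact absurd he (key j i h hj).ne

theorem exists_approx (hev : ∀ x, Continuous fun k => ev k x) (hb : ∀ k h, |ev k h| ≤ ‖h‖)
    (hd : Dent ev) [Nonempty K] {η : ℝ} (hη : 0 < η) :
    ∃ G : X → ℝ, (∀ x, sg ev univ x - η ≤ G x ∧ G x ≤ sg ev univ x) ∧
      (∀ y z, |G y - G z| ≤ 5 * ‖y - z‖) ∧ ∀ x, ∃ ξ, LA G ξ x 0 := by
  let N : Type := {p : Set K × ℝ // IsClosed p.1 ∧ p.1.Nonempty ∧ 0 < p.2 ∧
    ∀ k ∈ p.1, ∀ k' ∈ p.1, ∀ h, |ev k h - ev k' h| ≤ p.2 * ‖h‖}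
  have := fun n : N => exists_slicing hev hb hd n.2.1 n.2.2.1
    (show 0 < n.1.2 / 4 by linarith [n.2.2.2.1])
  choose I S E a hS hE hex hfin using this
  let s : Sys X :=
    { N := N
      d := fun n => n.1.2
      σ := fun n => sg ev n.1.1
      b := fun n => ev n.2.2.1.some
      I := I
      S := fun n i => ⟨(S n i, n.1.2 / 4), (hS n i).1, (hS n i).2.1,
        by linarith [n.2.2.2.1], (hS n i).2.2.2⟩
      E := fun n i => ⟨(E n i, n.1.2), (hE n i).1, (hE n i).2.1, n.2.2.2.1,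
        fun k hk k' hk' => n.2.2.2.2 k ((hE n i).2.2 hk) k' ((hE n i).2.2 hk')⟩
      a := a
      d0 := fun n => n.2.2.2.1.le
      lip := fun n => sg_lip hev n.2.1 n.2.2.1 fun k hk => n.2.2.2.2 k hk _ n.2.2.1.some_mem
      dS := fun _ _ => le_rfl
      dE := fun _ _ => le_rfl
      bS := fun n i => n.2.2.2.2 _ ((hS n i).2.2.1 (hS n i).2.1.some_mem) _ n.2.2.1.some_mem
      bE := fun n i => n.2.2.2.2 _ ((hE n i).2.2 (hE n i).2.1.some_mem) _ n.2.2.1.some_mem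
      le := fun n i => sg_mono hev (hS n i).1 (hS n i).2.1 n.2.1 (hS n i).2.2.1
      ex := hex
      fin := hfin }
  let n₀ : N := ⟨(univ, 2), isClosed_univ, univ_nonempty, two_pos, fun k _ k' _ h =>
    (abs_sub _ _).trans (by linarith [hb k h, hb k' h])⟩
  obtain ⟨G, h1, h2, h3⟩ := s.main n₀ hη
  refine ⟨G, h1, fun y z => ?_, h3⟩
  have a1 : |G y - G z - ev n₀.2.2.1.some (y - z)| ≤ 2 * 2 * ‖y - z‖ := h2 y z
  have a2 := abs_le.1 (hb n₀.2.2.1.some (y - z))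
  have a3 := abs_le.1 a1
  rw [abs_le]
  constructor <;> linarith [a2.1, a2.2, a3.1, a3.2]

end Pool.Agent.P.MP_d06606_an
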