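import Pool.Agent.P.MP_d06606_an.LA

namespace Pool.Agent.P.MP_d06606_an

open Filter Topology Set

section soft
variable {Γ : Type*}

/-- admissible levels for the smooth supremum -/
def smSet (w v : Γ → ℝ) : Set ℝ := {t | ∀ s : Finset Γ, ∑ γ ∈ s, psi ((v γ - t) / w γ) ≤ 1}

/-- the smooth supremum of the family `v` with widths `w` -/
noncomputable def sm (w v : Γ → ℝ) : ℝ := sInf (smSet w v)

variable {w v v' : Γ → ℝ}

theorem mem_smSet (hw : ∀ γ, 0 < w γ) {t : ℝ} (h : ∀ γ, v γ ≤ t) : t ∈ smSet w v := fun s => by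
  rw [Finset.sum_eq_zero fun γ _ =>
    psi_of_nonpos (div_nonpos_of_nonpos_of_nonneg (sub_nonpos.2 (h γ)) (hw γ).le)]
  exact zero_le_one

theorem le_of_mem_smSet (hw : ∀ γ, 0 < w γ) {t : ℝ} (h : t ∈ smSet w v) (γ : Γ) :
    v γ - w γ ≤ t := by
  have h1 := h {γ}
  rw [Finset.sum_singleton] at h1
  by_contra hc
  push Not at hc
  have h2 : 1 < (v γ - t) / w γ := by rw [lt_div_iff₀ (hw γ)]; linarith
  rw [psi_of_nonneg (by linarith)] at h1
  nlinarith

theorem smSet_shift (hw : ∀ γ, 0 < w γ) {r t : ℝ} (h : ∀ γ, v γ ≤ v' γ + r)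
    (ht : t ∈ smSet w v') : t + r ∈ smSet w v := fun s =>
  (Finset.sum_le_sum fun γ _ => psi_mono
    (div_le_div_of_nonneg_right (by linarith [h γ]) (hw γ).le)).trans (ht s)

theorem sm_le (hw : ∀ γ, 0 < w γ) (γ₀ : Γ) {t : ℝ} (h : t ∈ smSet w v) : sm w v ≤ t :=
  csInf_le ⟨v γ₀ - w γ₀, fun _ ht => le_of_mem_smSet hw ht γ₀⟩ h

theorem le_sm (hw : ∀ γ, 0 < w γ) {T : ℝ} (hT : ∀ γ, v γ ≤ T) (γ : Γ) : v γ - w γ ≤ sm w v :=
  le_csInf ⟨T, mem_smSet hw hT⟩ fun _ ht => le_of_mem_smSet hw ht γ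

theorem sm_le_sm (hw : ∀ γ, 0 < w γ) (γ₀ : Γ) {T r : ℝ} (hT : ∀ γ, v' γ ≤ T)
    (h : ∀ γ, v γ ≤ v' γ + r) : sm w v ≤ sm w v' + r := by
  rw [← sub_le_iff_le_add]
  exact le_csInf ⟨T, mem_smSet hw hT⟩ fun t ht =>
    sub_le_iff_le_add.2 (sm_le hw γ₀ (smSet_shift hw h ht))

theorem sm_eq (hw : ∀ γ, 0 < w γ) (γ₀ : Γ) {T μ : ℝ} (hT : ∀ γ, v γ ≤ T) (s : Finset Γ)
    (hμ : 0 < μ) (hs : ∀ γ ∉ s, v γ ≤ sm w v - μ) :
    ∑ γ ∈ s, psi ((v γ - sm w v) / w γ) = 1 := by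
  classical
  have hc : Continuous fun t : ℝ => ∑ γ ∈ s, psi ((v γ - t) / w γ) :=
    continuous_finsetSum _ fun γ _ => psi_continuous.comp (by fun_prop)
  apply le_antisymm
  · have h1 : ∀ t ∈ Ioi (sm w v), ∑ γ ∈ s, psi ((v γ - t) / w γ) ≤ 1 := by
      intro t ht
      obtain ⟨t', ht', hlt⟩ := exists_lt_of_csInf_lt ⟨T, mem_smSet hw hT⟩ ht
      have := smSet_shift (v := v) (r := t - t') hw (fun γ => by linarith) ht' s
      simpa using this
    have h2 : IsClosed {t : ℝ | ∑ γ ∈ s, psi ((v γ - t) / w γ) ≤ 1} :=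
      isClosed_le hc continuous_const
    have h3 := h2.closure_subset_iff.2 h1
    rw [closure_Ioi] at h3
    exact h3 (mem_Ici.2 le_rfl)
  · by_contra hlt
    push Not at hlt
    have h1 : ∀ᶠ t in 𝓝 (sm w v), ∑ γ ∈ s, psi ((v γ - t) / w γ) < 1 :=
      hc.continuousAt.eventually (gt_mem_nhds hlt)
    have h2 : ∀ᶠ t in 𝓝 (sm w v), sm w v - μ < t := lt_mem_nhds (by linarith)
    have h3 : ∀ᶠ t in 𝓝[<] (sm w v), t < sm w v := self_mem_nhdsWithin
    obtain ⟨t, ⟨a, b⟩, c⟩ := (((h1.and h2).filter_mono nhdsWithin_le_nhds).and h3).exists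
    refine absurd (sm_le hw γ₀ (t := t) fun s' => ?_) (not_le.2 c)
    calc ∑ γ ∈ s', psi ((v γ - t) / w γ) = ∑ γ ∈ s' ∩ s, psi ((v γ - t) / w γ) := by
          refine (Finset.sum_subset Finset.inter_subset_left fun γ h1 h2 => ?_).symm
          have : γ ∉ s := fun h => h2 (Finset.mem_inter.2 ⟨h1, h⟩)
          exact psi_of_nonpos
            (div_nonpos_of_nonpos_of_nonneg (by linarith [hs γ this]) (hw γ).le)
      _ ≤ ∑ γ ∈ s, psi ((v γ - t) / w γ) :=
          Finset.sum_le_sum_of_subset_of_nonneg Finset.inter_subset_right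
            fun γ _ _ => psi_nonneg _
      _ ≤ 1 := a.le

variable {X : Type*} [NormedAddCommGroup X] [NormedSpace ℝ X]

/-- implicit differentiation -/
theorem LA_implicit (hw : ∀ γ, 0 < w γ) (s : Finset Γ) {V : Γ → X → ℝ} {G : X → ℝ} {x : X}
    {c L : ℝ} {ζ : X →L[ℝ] ℝ} (hG : LA G ζ x L) (hV : ∀ γ ∈ s, ∃ ξ, LA (V γ) ξ x c)
    (h : ∀ᶠ y in 𝓝 x, ∑ γ ∈ s, psi ((V γ y - G y) / w γ) = 1) : ∃ ξ, LA G ξ x c := by
  classical
  choose! ξ hξ using hV
  set l : Γ → ℝ := fun γ => 2 * max ((V γ x - G x) / w γ) 0 with hl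
  have hl0 : ∀ γ, 0 ≤ l γ / w γ := fun γ => div_nonneg (by simp [hl]) (hw γ).le
  set Λ : ℝ := ∑ γ ∈ s, l γ / w γ with hΛ
  have hΛ0 : 0 < Λ := by
    by_contra hc
    have h0 : Λ = 0 := le_antisymm (not_lt.1 hc) (Finset.sum_nonneg fun γ _ => hl0 γ)
    have h1 := (Finset.sum_eq_zero_iff_of_nonneg fun γ _ => hl0 γ).1 h0
    have h2 := h.self_of_nhds
    rw [Finset.sum_eq_zero] at h2
    · exact zero_ne_one h2
    · intro γ hγ
      have h3 : l γ = 0 := by simpa [(hw γ).ne'] using h1 γ hγ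
      have h4 : max ((V γ x - G x) / w γ) 0 = 0 := by simpa [hl] using h3
      simp [psi, h4]
  have hR : ∀ γ ∈ s, LA (fun y => psi ((V γ y - G y) / w γ) - l γ * ((V γ y - G y) / w γ))
      0 x 0 := by
    intro γ hγ
    have h1 := ((hξ γ hγ).add (hG.smul (-1))).smul (w γ)⁻¹
    have h2 : (fun y => (w γ)⁻¹ * (V γ y + -1 * G y)) = fun y => (V γ y - G y) / w γ := by
      funext y; ring
    rw [h2] at h1
    have h3 := (psi_strict ((V γ x - G x) / w γ)).sub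
      ((hasStrictDerivAt_id ((V γ x - G x) / w γ)).const_mul (l γ))
    have h4 := h1.comp h3
    simpa [hl] using h4
  have h1 := ((LA.sum s (fun γ hγ => (hξ γ hγ).smul (l γ / w γ / Λ))).add
    (((LA.sum s hR).add (LA.const (-1) x)).smul Λ⁻¹))
  refine ⟨_, (h1.congr ?_).mono (le_of_eq ?_)⟩
  · filter_upwards [h] with y hy
    rw [Finset.sum_sub_distrib, hy]
    have e1 : ∑ γ ∈ s, l γ * ((V γ y - G y) / w γ) =
        ∑ γ ∈ s, l γ / w γ * V γ y - Λ * G y := by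
      rw [hΛ, Finset.sum_mul, ← Finset.sum_sub_distrib]
      exact Finset.sum_congr rfl fun γ _ => by ring
    have e2 : ∑ γ ∈ s, l γ / w γ / Λ * V γ y = Λ⁻¹ * ∑ γ ∈ s, l γ / w γ * V γ y := by
      rw [Finset.mul_sum]
      exact Finset.sum_congr rfl fun γ _ => by ring
    rw [e1, e2]
    field_simp
    ring
  · have e1 : ∑ γ ∈ s, |l γ / w γ / Λ| * c = c := by
      rw [← Finset.sum_mul, Finset.sum_congr rfl fun γ _ =>
        abs_of_nonneg (div_nonneg (hl0 γ) hΛ0.le), ← Finset.sum_div, ← hΛ, div_self hΛ0.ne',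
        one_mul]
    rw [e1]
    simp

end soft

/-- an elementary fixed point theorem -/
theorem exists_fixed {P : Type*} (wt : P → ℝ) (F : Set (P → ℝ))
    (T : (P → ℝ) → P → ℝ) (f₀ : P → ℝ) (h0 : f₀ ∈ F) (hT : ∀ f ∈ F, T f ∈ F)
    (hcl : ∀ (f : ℕ → P → ℝ) (g : P → ℝ), (∀ n, f n ∈ F) →
      (∀ p, Tendsto (fun n => f n p) atTop (𝓝 (g p))) → g ∈ F)
    (hb : ∀ f ∈ F, ∀ g ∈ F, ∀ p, |f p - g p| ≤ wt p)
    (hc : ∀ f ∈ F, ∀ g ∈ F, ∀ ρ : ℝ, 0 ≤ ρ → (∀ p, |f p - g p| ≤ ρ * wt p) →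
      ∀ p, |T f p - T g p| ≤ ρ / 2 * wt p) : ∃ g ∈ F, T g = g := by
  set f : ℕ → P → ℝ := fun n => T^[n] f₀ with hf
  have hs : ∀ n, f (n + 1) = T (f n) := fun n => Function.iterate_succ_apply' T n f₀
  have hF : ∀ n, f n ∈ F := fun n => by
    induction n with
    | zero => exact h0
    | succ n ih => rw [hs]; exact hT _ ih
  have key : ∀ n, ∀ g ∈ F, ∀ p, |f n p - T^[n] g p| ≤ (1 / 2) ^ n * wt p := by
    intro n g hg
    induction n with
    | zero => intro p; simpa [hf] using hb _ h0 _ hg p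
    | succ n ih =>
      intro p
      have hg' : T^[n] g ∈ F := Function.Iterate.rec (· ∈ F) hg hT n
      have := hc _ (hF n) _ hg' _ (by positivity) ih p
      rw [hs, Function.iterate_succ_apply', pow_succ]
      convert this using 2
      ring
  have hcau : ∀ p, CauchySeq fun n => f n p := fun p => by
    refine cauchySeq_of_le_geometric (1 / 2) (wt p) (by norm_num) fun n => ?_
    have := key n (T f₀) (hT _ h0) p
    rw [Real.dist_eq, mul_comm]
    exact this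
  choose g hg using fun p => cauchySeq_tendsto_of_complete (hcau p)
  have hgF : g ∈ F := hcl f g hF hg
  have h1 : ∀ n p, |f n p - g p| ≤ (1 / 2) ^ n * wt p := by
    intro n p
    have a : Tendsto (fun m => |f n p - f (n + m) p|) atTop (𝓝 |f n p - g p|) := by
      have := (hg p).comp (tendsto_add_atTop_nat n)
      refine ((tendsto_const_nhds.sub this).abs).congr fun m => ?_
      simp [add_comm]
    refine le_of_tendsto' a fun m => ?_
    have := key n (f m) (hF m) p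
    have e : f (n + m) = T^[n] (f m) := Function.iterate_add_apply T n m f₀
    rw [e]
    exact this
  refine ⟨g, hgF, funext fun p => ?_⟩
  have h2 : Tendsto (fun n => f (n + 1) p) atTop (𝓝 (T g p)) := by
    rw [tendsto_iff_norm_sub_tendsto_zero]
    have a : Tendsto (fun n : ℕ => (1 / 2 : ℝ) ^ n / 2 * wt p) atTop (𝓝 0) := by
      simpa using ((tendsto_pow_atTop_nhds_zero_of_lt_one (r := (1 / 2 : ℝ)) (by norm_num)
        (by norm_num)).div_const 2).mul_const (wt p)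
    refine squeeze_zero (fun _ => norm_nonneg _) (fun n => ?_) a
    rw [hs]
    exact hc _ (hF n) _ hgF _ (by positivity) (h1 n) p
  exact tendsto_nhds_unique h2 ((hg p).comp (tendsto_add_atTop_nat 1))

end Pool.Agent.P.MP_d06606_an
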